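import Mathlib
import Pool.Agent.X20.ColoredPary

/-!
# MP_7b566e_nt, Q1 fails for `p = 11`, `u = 9`, `s = 1`

Here `k = (p-1)(u p^s - 1) = 980` and `n = 132 ≥ u p^s = 99`, but `ν_11(A_{11,980}(132)) = 3`.
-/

namespace Pool.Agent.Results.MP_7b566e_nt.CounterexampleEleven

open PowerSeries Pool.Agent.X20.ColoredPary

/-- `A m k n` is the coefficient of `x^n` in `∏_{i ≥ 0} (1 - x^{m^i})^{-k}` (`m ≥ 2`).  Since
`m ^ i > n` for all `i > n`, the factors with `i > n` do not contribute, so the product is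
taken over `0 ≤ i ≤ n`. -/
noncomputable def A (m k n : ℕ) : ℚ :=
  coeff n (∏ i ∈ Finset.range (n + 1), ((1 - X ^ (m ^ i) : ℚ⟦X⟧) ^ k)⁻¹)

theorem tail_one (K : ℕ) (hK : 1 ≤ K) (s : Finset ℕ) (hs : ∀ i ∈ s, 3 ≤ i) :
    (X : ℚ⟦X⟧) ^ 133 ∣ (∏ i ∈ s, ((1 - X ^ (11 ^ i) : ℚ⟦X⟧) ^ K)⁻¹) - 1 := by
  classical
  induction s using Finset.induction_on with
  | empty => simp
  | insert a s ha ih =>
    rw [Finset.prod_insert ha]
    have h1 := ih (fun i hi => hs i (Finset.mem_insert_of_mem hi))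
    have h3 : 3 ≤ a := hs a (Finset.mem_insert_self a s)
    have h2 : (X : ℚ⟦X⟧) ^ 133 ∣ ((1 - X ^ (11 ^ a) : ℚ⟦X⟧) ^ K)⁻¹ - 1 := by
      rw [inv_eq_S _ _ (by positivity) hK]
      refine dvd_trans (pow_dvd_pow X ?_) (S_sub_one (11 ^ a) K (by positivity))
      calc 133 ≤ 11 ^ 3 := by norm_num
        _ ≤ 11 ^ a := Nat.pow_le_pow_right (by norm_num) h3
    have e : (((1 - X ^ (11 ^ a) : ℚ⟦X⟧) ^ K)⁻¹ *
        ∏ i ∈ s, ((1 - X ^ (11 ^ i) : ℚ⟦X⟧) ^ K)⁻¹) - 1 =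
        (((1 - X ^ (11 ^ a) : ℚ⟦X⟧) ^ K)⁻¹ - 1) *
          (∏ i ∈ s, ((1 - X ^ (11 ^ i) : ℚ⟦X⟧) ^ K)⁻¹) +
          ((∏ i ∈ s, ((1 - X ^ (11 ^ i) : ℚ⟦X⟧) ^ K)⁻¹) - 1) := by ring
    rw [e]
    exact dvd_add (Dvd.dvd.mul_right h2 _) h1

/-- binomials via descending factorials, for fast evaluation -/
def ch (q : ℕ) : ℕ := (q + 979).descFactorial q / q.factorial

theorem ch_eq (q : ℕ) : (q + 979).choose 979 = ch q := by
  unfold ch
  rw [← Nat.choose_eq_descFactorial_div_factorial, Nat.choose_symm_add]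

theorem S_one_coeff (n : ℕ) : coeff n (S 1 980) = (ch n : ℚ) := by
  rw [← ch_eq]
  simp only [S, coeff_mk, one_dvd, if_true, Nat.div_one]

/-- the explicit value of `A 11 980 132` -/
def T : ℕ := ∑ c ∈ Finset.range 2, (∑ b ∈ Finset.range ((132 - 121 * c) / 11 + 1),
      ch (132 - 121 * c - 11 * b) * ch b) * ch c

theorem T_div : T = 11 ^ 3 * (T / 11 ^ 3) := by decide +kernel

theorem T_ndvd : ¬ 11 ∣ T / 11 ^ 3 := by decide +kernel

theorem A_eq : A 11 980 132 = (T : ℚ) := by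
  unfold A T
  have hsplit : Finset.range (132 + 1) = Finset.range 3 ∪ Finset.Ico 3 133 := by decide
  have hdisj : Disjoint (Finset.range 3) (Finset.Ico 3 133) := by decide
  rw [hsplit, Finset.prod_union hdisj, mul_comm,
    coeff_mul_of_one 133 _ _ (tail_one 980 (by norm_num) _
      (fun i hi => (Finset.mem_Ico.mp hi).1)) 132 (by norm_num)]
  rw [Finset.prod_range_succ, Finset.prod_range_succ, Finset.prod_range_succ,
    Finset.prod_range_zero, one_mul]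
  rw [inv_eq_S _ _ (by norm_num) (by norm_num), inv_eq_S _ _ (by norm_num) (by norm_num),
    inv_eq_S _ _ (by norm_num) (by norm_num)]
  norm_num only [pow_zero, pow_one, pow_two]
  rw [coeff_mul_S _ 121 980 (by norm_num) 132]
  push_cast
  apply Finset.sum_congr (by norm_num)
  intro c _
  rw [coeff_mul_S _ 11 980 (by norm_num)]
  rw [show (980 - 1 : ℕ) = 979 from rfl, ch_eq c]
  congr 1
  apply Finset.sum_congr rfl
  intro b _
  rw [S_one_coeff, ch_eq b]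

theorem val_eq : ∃ N : ℕ, A 11 980 132 = ((11 ^ 3 * N : ℕ) : ℚ) ∧ ¬ 11 ∣ N := by
  rw [A_eq]
  exact ⟨T / 11 ^ 3, congrArg _ T_div, T_ndvd⟩

theorem padic : padicValRat 11 (A 11 980 132) = 3 := by
  obtain ⟨N, hN, h11⟩ := val_eq
  have : Fact (Nat.Prime 11) := ⟨by norm_num⟩
  have hN0 : N ≠ 0 := by rintro rfl; exact h11 (dvd_zero _)
  rw [hN, padicValRat.of_nat, padicValNat.mul (by norm_num) hN0, padicValNat.prime_pow,
    padicValNat.eq_zero_of_not_dvd h11]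
  norm_num

/-- **Negative answer to Q1.**  Part (i) of Q1 fails: with the prime `p = 11`, `u = 9`, `s = 1`
(and `k = (p-1)(u p^s - 1) = 980`) the integer `n = 132 ≥ u p^s = 99` satisfies
`ν_p(A_{p,k}(n)) = 3`, which is not in `{1, 2}`. -/
theorem result :
    ¬ (∀ p u s : ℕ, p.Prime → 3 ≤ p → 2 ≤ u → u ≤ p - 1 → 1 ≤ s →
        ∀ n : ℕ, u * p ^ s ≤ n →
          padicValRat p (A p ((p - 1) * (u * p ^ s - 1)) n) = 1 ∨
          padicValRat p (A p ((p - 1) * (u * p ^ s - 1)) n) = 2) ∧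
      padicValRat 11 (A 11 ((11 - 1) * (9 * 11 ^ 1 - 1)) 132) = 3 := by
  refine ⟨fun h => ?_, padic⟩
  have := h 11 9 1 (by norm_num) (by norm_num) (by norm_num) (by norm_num) le_rfl 132
    (by norm_num)
  have h2 : ((11 - 1) * (9 * 11 ^ 1 - 1) : ℕ) = 980 := by norm_num
  rw [h2] at this
  rw [padic] at this
  norm_num at this

end Pool.Agent.Results.MP_7b566e_nt.CounterexampleEleven
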